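import Pool.Agent.Helper34.R9.Sheet

/-! # Statements for `N_9(H) ≥ H ^ (1/8 - ε)` (MP_798d7d_nt)

The family of `Helper17/R8/Sheet.lean` (six parameters `u`, `s_7 = 1`) and the ninth point `(1 : 1 : Y)` on
the vertical line through `(1 : 1 : 1)`: `4 t = EB(u) - z²`, `z = 2 Y + g1(u)`.  Size of `u`: `m`; size of
`z`: between `MB m⁴` and `3 MB m⁴`, so `t ∼ m⁸`, `A = O(m²⁶)`, `B = O(m⁴⁰)`.  Window (helper89): members with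
the same `(A, B)` have `t' - t = O(m⁶)` (from `B`), then `e_2(u) - e_2(u') = O(1)` (from `A`); so there are
only `O(m^(10 + ε))` pairs `(u, u')`, each with less than 200 pairs `(t, t')`.
-/

set_option autoImplicit false

namespace Pool.Helper34.R9

open Pool.Agent.Helper97.RK (cur)
open Pool.Helper17.RS (RS NR ST_GEN)
open Pool.Helper17.R8 (ek q4 q3 q2 q1 q0 fI fJ yv y9 xX pI pJ ss ub ST_DDIV ST_CURVE ST_INJ ST_PT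
  ST_RANKQ ST_VIE)
open Polynomial

/-! ## General forms of SV9, PR9 -/

/-- the box with `k` small parameters and one of size `m ^ l` -/
def BoxG (k l m : ℕ) : Finset ((Fin k → ℕ) × ℕ) :=
  (Fintype.piFinset fun _ => Finset.range m) ×ˢ Finset.range (m ^ l)

open Classical in
/-- SVG (from ROOT, SV1, SV3): general form of SV9 (same proof; SV9 is the case `k = 2`, `l = 3`). -/
def ST_SVG : Prop := ∀ (k l Q d K : ℕ) (M κ lam : ℤ) (zb : ℕ → ℤ)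
  (P : (Fin (k + 1) → ℕ) → ℤ[X]) (E ρ : (Fin (k + 1) → ℕ) → ℤ) (W : (Fin k → ℕ) → ℤ[X])
  (A B tt : ℕ → (Fin (k + 1) → ℕ) × ℕ → ℤ) (C : ℤ), 2 ≤ l → 1000 ≤ Q → d ≤ 30 → 1 ≤ C →
  (∀ q : ℕ, q.Prime → Q < q → ¬ (q : ℤ) ∣ M ∧ ¬ (q : ℤ) ∣ κ ∧ ¬ (q : ℤ) ∣ lam ∧
    ∀ i, ¬ (q : ℤ) ∣ (W i).coeff d) →
  (∀ a, (P a).natDegree = 5 ∧ (P a).leadingCoeff = lam) → (∀ i, (W i).natDegree ≤ d) →
  (∀ m T, κ * tt m T = E T.1 - (zb m + M * (T.2 : ℤ)) ^ 2) →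
  (∀ m T (q k : ℕ), (q : ℤ) ^ k ∣ B m T → (q : ℤ) ^ k ∣ (P T.1).eval (tt m T)) →
  (∀ a (q : ℕ), q.Prime → Q < q → ∀ t : ℤ, (q : ℤ) ∣ κ * t - E a → (q : ℤ) ∣ (P a).eval t →
    (q : ℤ) ∣ (W (fun i => a i.succ)).eval (a 0 : ℤ)) →
  (∀ m T (q : ℕ), q.Prime → Q < q → (q : ℤ) ∣ A m T → (q : ℤ) ∣ B m T → (q : ℤ) ∣ ρ T.1) →
  (∀ a, ρ a ≠ 0) →
  (∀ m : ℕ, 1 ≤ m → ∀ T ∈ BoxG (k + 1) l m, |ρ T.1| ≤ C * (m : ℤ) ^ K) →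
  ∃ m0 : ℕ, ∀ m : ℕ, m0 ≤ m →
    2 * ((BoxG (k + 1) l m).filter (fun T => ∃ q : ℕ, q.Prime ∧ Q < q ∧ (q : ℤ) ^ 4 ∣ A m T ∧
      (q : ℤ) ^ 6 ∣ B m T)).card ≤ m ^ (k + 1 + l)

open Classical in
/-- PRG (from CURVE): general form of PR9; `PP` contains the pairs `(T.1, T'.1)` which occur. -/
def ST_PRG : Prop := ∀ (k l : ℕ) (M κ : ℤ) (zb : ℕ → ℤ) (f g : (Fin k → ℕ) → ℚ[X])
  (E : (Fin k → ℕ) → ℤ) (A B tt : ℕ → (Fin k → ℕ) × ℕ → ℤ), M ≠ 0 →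
  (∀ a, (f a).natDegree = 3) → (∀ a, (g a).natDegree = 5) →
  (∀ a a', (g a).leadingCoeff = (g a').leadingCoeff) →
  (∀ m T, κ * tt m T = E T.1 - (zb m + M * (T.2 : ℤ)) ^ 2) →
  (∀ m T T', A m T = A m T' → (f T.1).eval (tt m T : ℚ) = (f T'.1).eval (tt m T' : ℚ)) →
  (∀ m T T', B m T = B m T' → (g T.1).eval (tt m T : ℚ) = (g T'.1).eval (tt m T' : ℚ)) →
  (∀ m T T', (f T'.1).comp (X + C ((tt m T' - tt m T : ℤ) : ℚ)) = f T.1 →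
    (g T'.1).comp (X + C ((tt m T' - tt m T : ℤ) : ℚ)) = g T.1 → T.1 = T'.1) →
  ∀ (m : ℕ) (PP : Finset ((Fin k → ℕ) × (Fin k → ℕ))),
  (∀ T ∈ BoxG k l m, ∀ T' ∈ BoxG k l m, A m T = A m T' → B m T = B m T' → (T.1, T'.1) ∈ PP) →
  ((BoxG k l m ×ˢ BoxG k l m).filter (fun p => A m p.1 = A m p.2 ∧
    B m p.1 = B m p.2)).card ≤ 1000 * PP.card + 1000 * m ^ (k + l)

open Classical in
/-- FINB: `BoxG 6 4 m`, `m = n³`, `N = n²⁰` (`26 · 3 ≤ 80`, `40 · 3 = 120`): the good members give at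
least `(m¹⁰ / 2)² / (K m^(10 + ε))` different pairs in `RS r C N`. -/
def ST_FINB : Prop := ST_GEN → ∀ (r Q : ℕ) (A B : ℕ → (Fin 6 → ℕ) × ℕ → ℤ) (C : ℤ), 1 ≤ C →
  (∀ m T, 4 * A m T ^ 3 + 27 * B m T ^ 2 ≠ 0 ∧
    (∀ q : ℕ, q.Prime → q ≤ Q → ¬ ((q : ℤ) ∣ A m T ∧ (q : ℤ) ∣ B m T)) ∧
    (r : Cardinal) ≤ Module.rank ℤ ((cur (A m T) (B m T)).toAffine).Point) →
  (∀ m : ℕ, 1 ≤ m → ∀ T ∈ BoxG 6 4 m, |A m T| ≤ C * (m : ℤ) ^ 26 ∧ |B m T| ≤ C * (m : ℤ) ^ 40) →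
  (∃ m0 : ℕ, ∀ m : ℕ, m0 ≤ m →
    2 * ((BoxG 6 4 m).filter (fun T => ∃ q : ℕ, q.Prime ∧ Q < q ∧ (q : ℤ) ^ 4 ∣ A m T ∧
      (q : ℤ) ^ 6 ∣ B m T)).card ≤ m ^ 10) →
  (∀ ε : ℝ, 0 < ε → ∃ K : ℝ, 0 < K ∧ ∀ m : ℕ, 1 ≤ m →
    (((BoxG 6 4 m ×ˢ BoxG 6 4 m).filter (fun p => A m p.1 = A m p.2 ∧
      B m p.1 = B m p.2)).card : ℝ) ≤ K * (m : ℝ) ^ (10 + ε)) →
  ∀ ε : ℝ, 0 < ε → ∃ H₀ : ℝ, ∀ H : ℝ, H₀ ≤ H → H ^ ((1 : ℝ) / 8 - ε) ≤ (NR r H : ℝ)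

/-! ## The family -/

/-- larger than all constants which occur -/
def QB : ℕ := 10 ^ 30
/-- do not unfold: use `dvd_MB`, `MM_dvd_MB`, `MB_pos` -/
def MB : ℤ := 1728 * (Nat.factorial QB : ℤ)

theorem dvd_MB (n : ℕ) (h : 0 < n) (h2 : n ≤ QB) : (n : ℤ) ∣ MB :=
  Dvd.dvd.mul_left (Int.natCast_dvd_natCast.2 (Nat.dvd_factorial h h2)) _

theorem MB_pos : 0 < MB := by
  have := Nat.factorial_pos QB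
  unfold MB
  positivity

theorem MM_dvd_MB : Pool.Helper17.R8.MM ∣ MB := by
  unfold Pool.Helper17.R8.MM MB
  refine mul_dvd_mul_left _ (Int.natCast_dvd_natCast.2 (Nat.factorial_dvd_factorial ?_))
  unfold Pool.Helper17.R8.QQ QB
  norm_num

theorem QB_eq : QB = 10 ^ 30 := rfl

attribute [irreducible] QB MB

section
variable {R : Type*} [CommRing R]
/-- `x = s_8` -/
def g1 (e : ℕ → R) (x : R) : R := x ^ 3 + e 2 * x - e 3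
def EB (e : ℕ → R) (x : R) : R := g1 e x ^ 2 - 4 * (x ^ 3 * g1 e x + e 4 * x ^ 2 - e 5 * x)

/-- `(x : 1 : Y)` is on the cubic -/
theorem chk_ninth (e : ℕ → R) (t x Y : R)
    (h : x ^ 8 + e 2 * x ^ 6 - e 3 * x ^ 5 + e 4 * x ^ 4 - e 5 * x ^ 3 + e 6 * x ^ 2 - e 7 * x +
      e 8 = 0)
    (ht : t = -(Y ^ 2 + g1 e x * Y + x ^ 3 * g1 e x + e 4 * x ^ 2 - e 5 * x)) :
    FF e t x 1 Y = 0 := by
  subst ht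
  unfold FF g1
  linear_combination x * h

theorem chk_EB (e : ℕ → R) (x Y : R) :
    4 * (-(Y ^ 2 + g1 e x * Y + x ^ 3 * g1 e x + e 4 * x ^ 2 - e 5 * x)) =
      EB e x - (2 * Y + g1 e x) ^ 2 := by
  unfold EB
  ring

/-- the nine points `PX / PV²`; reference point `s_7` (index 6) -/
def PX (σ : Fin 8 → R) (t Y : R) : Fin 9 → R :=
  ![3 * xX (ek σ) t (σ 0 ^ 2) (yv (ek σ) t (σ 0)) (σ 6 ^ 2) 1 (yv (ek σ) t (σ 6)),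
    3 * xX (ek σ) t (σ 1 ^ 2) (yv (ek σ) t (σ 1)) (σ 6 ^ 2) 1 (yv (ek σ) t (σ 6)),
    3 * xX (ek σ) t (σ 2 ^ 2) (yv (ek σ) t (σ 2)) (σ 6 ^ 2) 1 (yv (ek σ) t (σ 6)),
    3 * xX (ek σ) t (σ 3 ^ 2) (yv (ek σ) t (σ 3)) (σ 6 ^ 2) 1 (yv (ek σ) t (σ 6)),
    3 * xX (ek σ) t (σ 4 ^ 2) (yv (ek σ) t (σ 4)) (σ 6 ^ 2) 1 (yv (ek σ) t (σ 6)),
    3 * xX (ek σ) t (σ 5 ^ 2) (yv (ek σ) t (σ 5)) (σ 6 ^ 2) 1 (yv (ek σ) t (σ 6)),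
    3 * xX (ek σ) t (σ 7 ^ 2) (yv (ek σ) t (σ 7)) (σ 6 ^ 2) 1 (yv (ek σ) t (σ 6)),
    3 * xX (ek σ) t (σ 0 ^ 2) (yv (ek σ) t (σ 0)) (-(ek σ 8)) t (y9 (ek σ) t),
    3 * xX (ek σ) t (σ 6 ^ 2) (yv (ek σ) t (σ 6)) (Y * 1) (σ 7 * 1) (wF (ek σ) t (σ 7) 1 Y)]
def PV (σ : Fin 8 → R) (t Y : R) : Fin 9 → R :=
  ![6 * (σ 0 ^ 2 - σ 6 ^ 2), 6 * (σ 1 ^ 2 - σ 6 ^ 2), 6 * (σ 2 ^ 2 - σ 6 ^ 2),
    6 * (σ 3 ^ 2 - σ 6 ^ 2), 6 * (σ 4 ^ 2 - σ 6 ^ 2), 6 * (σ 5 ^ 2 - σ 6 ^ 2),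
    6 * (σ 7 ^ 2 - σ 6 ^ 2), 6 * (σ 0 ^ 2 * t + ek σ 8), 6 * (σ 6 ^ 2 * (σ 7 * 1) - Y * 1)]
end

/-- the parameters `u` of a member: `u 0 = ub 0 + MB a 0`, `u i = ub i + MB (a i + a 0)` -/
def uB (a : Fin 6 → ℕ) : Fin 6 → ℤ :=
  fun i => ub i + MB * ((if i = 0 then 0 else (a i : ℤ)) + (a 0 : ℤ))

/-- base: `s = (-5, 13, -17, 15, 7, -11, 1, -3)`, `g1 = 1465`, `Y = 236`, `z = 2 Y + g1 = 1937`,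
`t = -794007`, `A = -356833411832158312539`, `B = 2594892302505568788490360346186` -/
def zB (m : ℕ) : ℤ := 1937 + MB * (m : ℤ) ^ 4

def tB (m : ℕ) (T : (Fin 6 → ℕ) × ℕ) : ℤ :=
  (EB (ek (ss (uB T.1))) (ss (uB T.1) 7) - (zB m + MB * (T.2 : ℤ)) ^ 2) / 4
def yB (m : ℕ) (T : (Fin 6 → ℕ) × ℕ) : ℤ :=
  (zB m + MB * (T.2 : ℤ) - g1 (ek (ss (uB T.1))) (ss (uB T.1) 7)) / 2
def aB (m : ℕ) (T : (Fin 6 → ℕ) × ℕ) : ℤ := (-(fI (ek (ss (uB T.1))) (tB m T))) / 48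
def bB (m : ℕ) (T : (Fin 6 → ℕ) × ℕ) : ℤ := (-(fJ (ek (ss (uB T.1))) (tB m T))) / 1728

/-- RELB. -/
def ST_RELB : Prop := ∀ m T, (∀ i, MB ∣ uB T.1 i - ub i) ∧
  4 * tB m T = EB (ek (ss (uB T.1))) (ss (uB T.1) 7) - (zB m + MB * (T.2 : ℤ)) ^ 2 ∧
  2 * yB m T = zB m + MB * (T.2 : ℤ) - g1 (ek (ss (uB T.1))) (ss (uB T.1) 7) ∧
  48 * aB m T = -(fI (ek (ss (uB T.1))) (tB m T)) ∧
  1728 * bB m T = -(fJ (ek (ss (uB T.1))) (tB m T)) ∧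
  ((QB.factorial : ℕ) : ℤ) ∣ tB m T + 794007 ∧ ((QB.factorial : ℕ) : ℤ) ∣ yB m T - 236 ∧
  ((QB.factorial : ℕ) : ℤ) ∣ aB m T + 356833411832158312539 ∧
  ((QB.factorial : ℕ) : ℤ) ∣ bB m T - 2594892302505568788490360346186

/-- CERTB (from RELB, VIE, PT, CUBP, RANKQ; compare `Helper34/R8/PTS.lean`, `Helper46/R8/CERT.lean`).
`4 A³ + 27 B² ≠ 0`, `gcd(A, B) = 1` at the base; no root modulo 5; the characters `(q, x)`: signs of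
`PX j - x (PV j)²`, `j = 0, .., 8`:
`(11, 8): (+,-,-,+,-,-,-,+,-)`; `(17, 1): (+,-,+,-,+,-,+,-,+)`; `(19, 6): (+,+,+,+,+,+,-,-,+)`;
`(19, 9): (+,-,-,-,+,-,+,-,+)`; `(23, 8): (-,+,+,+,-,-,+,+,-)`; `(29, 21): (+,-,-,+,+,+,-,-,+)`;
`(31, 2): (-,+,+,+,-,+,-,+,+)`; `(37, 11): (+,+,+,-,+,+,+,-,-)`; `(37, 36): (+,+,-,+,-,-,-,+,+)` (nonsingular, independent over `𝔽₂`). -/
def ST_CERTB : Prop := ∀ m T, 4 * aB m T ^ 3 + 27 * bB m T ^ 2 ≠ 0 ∧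
  (∀ q : ℕ, q.Prime → q ≤ QB → ¬ ((q : ℤ) ∣ aB m T ∧ (q : ℤ) ∣ bB m T)) ∧
  ((9 : ℕ) : Cardinal) ≤ Module.rank ℤ ((cur (aB m T) (bB m T)).toAffine).Point

/-- BNDB (from RELB; compare `Helper84/R8/BND.lean`). -/
def ST_BNDB : Prop := ∃ C : ℤ, 1 ≤ C ∧ ∀ m : ℕ, 1 ≤ m → ∀ T ∈ BoxG 6 4 m,
  (∀ k, k ≤ 8 → |ek (ss (uB T.1)) k| ≤ C * (m : ℤ) ^ k) ∧
  |EB (ek (ss (uB T.1))) (ss (uB T.1) 7)| ≤ C * (m : ℤ) ^ 6 ∧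
  |aB m T| ≤ C * (m : ℤ) ^ 26 ∧ |bB m T| ≤ C * (m : ℤ) ^ 40 ∧
  |rho (ek (ss (uB T.1)))| ≤ C * (m : ℤ) ^ 240

/-- VTOP: the value of `fJh` for the leading coefficients in the direction of `a 0`: `s_i ∼ a 0`
(`i ≤ 6`), `s_7 = 1`, `s_8 ∼ - 6 a 0`. -/
def ST_VTOP : Prop :=
  fJh (ek (![1, 1, 1, 1, 1, 1, 0, -6] : Fin 8 → ℤ)) 4
    (EB (ek (![1, 1, 1, 1, 1, 1, 0, -6] : Fin 8 → ℤ)) (-6)) = -30433622863380480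

/-- RHOB (from RELB, RES3; a prime `p` with `gcd(pI, pJ) = 1` modulo `p` at the base). -/
def ST_RHOB : Prop := ∀ a : Fin 6 → ℕ, rho (ek (ss (uB a))) ≠ 0

open Classical in
/-- SIEVEB (from SVG with `k = 5`, `l = 4`, `Q = QB`, `d = 30`, `K = 240`, `M = MB`, `κ = 4`,
`P a = pJ`, `lam = 1728`, `W i = fJh` of the polynomials in `a 0` (EKL, LEAD, VTOP: coefficient
`MB³⁰ · (-30433622863380480)`), `ρ = rho` (RES1, RHOB, BNDB), RELB). -/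
def ST_SIEVEB : Prop := ∃ m0 : ℕ, ∀ m : ℕ, m0 ≤ m →
  2 * ((BoxG 6 4 m).filter (fun T => ∃ q : ℕ, q.Prime ∧ QB < q ∧ (q : ℤ) ^ 4 ∣ aB m T ∧
    (q : ℤ) ^ 6 ∣ bB m T)).card ≤ m ^ 10

/-- WINB (the window; `Helper89/R9/WIN.lean`, RELB, BNDB): for members with the same `(A, B)` the
difference of `e 2` is bounded. -/
def ST_WINB : Prop := ∃ K : ℤ, 1 ≤ K ∧ ∀ m : ℕ, 1 ≤ m → ∀ T ∈ BoxG 6 4 m, ∀ T' ∈ BoxG 6 4 m,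
  aB m T = aB m T' → bB m T = bB m T' → |ek (ss (uB T.1)) 2 - ek (ss (uB T'.1)) 2| ≤ K

open Classical in
/-- PR2B: for each difference `n` fix `a'` and `a 0, .., a 3`: the equation in `(a 4, a 5)` is
`x² + x y + y² + α x + β y = γ`, that is `(3 y + 2 β - α)² + 3 (2 x + y + α)² = N'`
(`Pool.Helper34.R7.rep_all` with `d = 3`, `card_divisors_le_uniform`). -/
def ST_PR2B : Prop := ∀ K : ℤ, ∀ ε : ℝ, 0 < ε → ∃ C : ℝ, 0 < C ∧ ∀ m : ℕ, 1 ≤ m →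
  ((((Fintype.piFinset fun _ : Fin 6 => Finset.range m) ×ˢ
    (Fintype.piFinset fun _ : Fin 6 => Finset.range m)).filter (fun p =>
      |ek (ss (uB p.1)) 2 - ek (ss (uB p.2)) 2| ≤ K)).card : ℝ) ≤ C * (m : ℝ) ^ (10 + ε)

open Classical in
/-- PAIRB (from PRG with `f = pI`, `g = pJ` over `ℚ`, WINB, PR2B, RELB and
`Pool.Helper17.R8.ST_INJ` (`uB ≡ ub` modulo `R8.MM`, `29 ∣ tB - tB'`); `e 2 ≠ 0`). -/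
def ST_PAIRB : Prop := ∀ ε : ℝ, 0 < ε → ∃ K : ℝ, 0 < K ∧ ∀ m : ℕ, 1 ≤ m →
  (((BoxG 6 4 m ×ˢ BoxG 6 4 m).filter (fun p => aB m p.1 = aB m p.2 ∧
    bB m p.1 = bB m p.2)).card : ℝ) ≤ K * (m : ℝ) ^ (10 + ε)

end Pool.Helper34.R9
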