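import Mathlib
import Pool.Agent.Helper97.RK.Stmts
import Pool.Agent.Helper17.RS.Sheet
import Pool.Agent.Helper17.R8.Sheet

/-! # General statements for `N_r(H) ≥ c H ^ (1/10)`, `r = 9, 10, 11` (MP_798d7d_nt)

FAMILY.  The cubics of `Helper17/R8/Sheet.lean` with `s_i` linear forms in three parameters `u` (weight
1) and `κ t = E(u) - z²` (`z` of weight 3, `E` of degree 6): the line through `P_i` and the cusp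
(vertical line) and similar rational curves meet the member in further rational points.
`m⁶` members with `u ∼ m`, `z ∼ m³`, height `∼ m⁶⁰`.  COLLISIONS: for `u ≠ u'` less than 200 pairs
`(t, t')` (rows CURVE, INJ), so less than 800 pairs `(z, z')`.
SIEVE: `q ≤ m`, `q ∤ z`: `t` is in 5 classes modulo `q²`, `z` in 10; `q ≤ m`, `q ∣ z`: then
`κ t ≡ E` modulo `q`, so `q ∣ V(u)` (the value of `B` at the vertex); `q > m`: `q ∣ ρ(u)`, the resultant.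
These are the general rows; the numbers (forms, points, certificate) are in a second sheet.
-/

set_option autoImplicit false

namespace Pool.Helper34.R9

open Pool.Agent.Helper97.RK (cur)
open Pool.Helper17.RS (RS NR ST_GEN)
open Pool.Helper17.R8 (ek q4 q3 q2 q1 q0 fI fJ yv y9 xX pI pJ ST_DDIV ST_CURVE)
open Polynomial

/-- the box: `u` of size `m`, `z` of size `m³` -/
def Box (m : ℕ) : Finset ((Fin 3 → ℕ) × ℕ) :=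
  (Fintype.piFinset fun _ => Finset.range m) ×ˢ Finset.range (m ^ 3)

section
variable {R : Type*} [CommRing R]

/-- `κ⁵ fJ e (E / κ)` -/
def fJh (e : ℕ → R) (κ E : R) : R :=
  72 * κ ^ 2 * (κ * e 3 ^ 2 - 4 * E) *
      (κ * (e 5 ^ 2 + 2 * e 3 * e 7 - 4 * (e 8 * e 2)) - 4 * (E * e 4)) *
      (κ * (e 7 ^ 2 - 4 * e 8 * e 6) + 4 * e 8 * E) +
    9 * κ * (κ * (2 * e 3 * e 5 - 4 * e 8) - 4 * (E * e 2)) *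
      (κ * (e 5 ^ 2 + 2 * e 3 * e 7 - 4 * (e 8 * e 2)) - 4 * (E * e 4)) *
      (κ ^ 2 * (2 * e 5 * e 7 - 4 * (e 8 * e 4)) - 4 * (E * (κ * e 6 - E))) -
    27 * (κ * e 3 ^ 2 - 4 * E) *
      (κ ^ 2 * (2 * e 5 * e 7 - 4 * (e 8 * e 4)) - 4 * (E * (κ * e 6 - E))) ^ 2 -
    27 * κ ^ 2 * (κ * (e 7 ^ 2 - 4 * e 8 * e 6) + 4 * e 8 * E) *
      (κ * (2 * e 3 * e 5 - 4 * e 8) - 4 * (E * e 2)) ^ 2 -
    2 * κ ^ 2 * (κ * (e 5 ^ 2 + 2 * e 3 * e 7 - 4 * (e 8 * e 2)) - 4 * (E * e 4)) ^ 3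

theorem chk_fJh (e : ℕ → R) (κ t : R) : fJh e κ (κ * t) = κ ^ 5 * fJ e t := by
  unfold fJh fJ q4 q3 q2 q1 q0
  ring

/-- the plane cubic; its points are `(X : Z : Y)`, among them `(s_i : 1 : s_i³)` and `(0 : 1 : 0)` -/
def FF (e : ℕ → R) (t X Z Y : R) : R :=
  (t - e 6) * (Y * Z ^ 2 - X ^ 3) + Y ^ 3 + e 2 * X * Y ^ 2 - e 3 * Y ^ 2 * Z + e 4 * X ^ 2 * Y -
    e 5 * X * Y * Z + e 6 * Y * Z ^ 2 - e 7 * X ^ 2 * Z + e 8 * X * Z ^ 2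

/-- the ordinate (times `ζ²`) on the quartic at `η / ζ = Y Z / (X Z)` -/
def wF (e : ℕ → R) (t X Z Y : R) : R :=
  2 * Z * (Y ^ 3 + e 2 * Y ^ 2 * X + e 4 * Y * X ^ 2 - (t - e 6) * X ^ 3) -
    Z ^ 2 * (e 3 * Y ^ 2 + e 5 * X * Y + e 7 * X ^ 2)

/-- a point of the plane cubic gives a point of the quartic -/
theorem chk_wF (e : ℕ → R) (t X Z Y : R) :
    wF e t X Z Y ^ 2 = q4 e t * (Y * Z) ^ 4 + q3 e t * (Y * Z) ^ 3 * (X * Z) +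
      q2 e t * (Y * Z) ^ 2 * (X * Z) ^ 2 + q1 e t * (Y * Z) * (X * Z) ^ 3 + q0 e t * (X * Z) ^ 4 +
      4 * Z ^ 2 * (Y ^ 3 + e 2 * Y ^ 2 * X + e 4 * Y * X ^ 2 - (t - e 6) * X ^ 3) *
        FF e t X Z Y := by
  unfold wF FF q4 q3 q2 q1 q0
  ring

/-- the resultant of `fI`, `fJ` (polynomials in `t` of degrees 3 and 5) -/
noncomputable def rho (e : ℕ → R) : R := resultant (pI e) (pJ e) 3 5

end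

/-- ROOT: roots modulo `q` in an interval. -/
def ST_ROOT : Prop := ∀ (W : ℤ[X]) (d q n : ℕ), q.Prime → W.natDegree ≤ d →
  ¬ (q : ℤ) ∣ W.coeff d → ∀ F : Finset ℕ, (∀ b ∈ F, b < n ∧ (q : ℤ) ∣ W.eval (b : ℤ)) →
  F.card ≤ d * (n / q + 1)

/-- SV1 (from DDIV: the `t` are in at most 5 classes modulo `q²`; for `t`, `t'` in the same class
`q² ∣ z² - z'²`, `q ∤ z`, so `q² ∣ z - z'` or `q² ∣ z + z'`: at most 2 classes of `b`). -/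
def ST_SV1 : Prop := ∀ (P : ℤ[X]) (q n : ℕ) (M κ zb E : ℤ), q.Prime → P.natDegree = 5 →
  ¬ (q : ℤ) ∣ P.leadingCoeff → ¬ (q : ℤ) ∣ M → ¬ (q : ℤ) ∣ κ → ¬ (q : ℤ) ∣ 2 →
  ∀ F : Finset ℕ, (∀ b ∈ F, b < n ∧ ¬ (q : ℤ) ∣ zb + M * (b : ℤ) ∧
    ∃ t : ℤ, κ * t = E - (zb + M * (b : ℤ)) ^ 2 ∧ (q : ℤ) ^ 6 ∣ P.eval t) →
  F.card ≤ 10 * (n / q ^ 2 + 1)

/-- SV3 (from ROOT with `W = ∑ i ≤ 5, p_i κ^(5-i) (E - (zb + M X)²)^i`, degree 10, leading coefficient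
`- lead · M¹⁰`). -/
def ST_SV3 : Prop := ∀ (P : ℤ[X]) (q n : ℕ) (M κ zb E : ℤ), q.Prime → P.natDegree = 5 →
  ¬ (q : ℤ) ∣ P.leadingCoeff → ¬ (q : ℤ) ∣ M →
  ∀ F : Finset ℕ, (∀ b ∈ F, b < n ∧
    ∃ t : ℤ, κ * t = E - (zb + M * (b : ℤ)) ^ 2 ∧ (q : ℤ) ∣ P.eval t) →
  F.card ≤ 10 * (n / q + 1)

open Classical in
/-- SV9 (from ROOT, SV1, SV3): the sieve.  `q ≤ m`, `q ∤ z`: SV1, the sum is at most
`m³ ∑ 10 (m³ / q² + 1) ≤ 10 m⁶ / Q + 10 m⁴`.  `q ≤ m`, `q ∣ z`: `q ∣ W`, for each `(a 1, a 2)` at most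
`d (m / q + 1)` values of `a 0` (ROOT) and `m³ / q + 1` of `z`: at most `120 m⁶ / Q`.  `q > m`: `q ∣ ρ(a)`,
at most `K + 1` such primes for each `a` (as soon as `m ≥ C`), and SV3: at most
`m³ (K + 1) 20 m²`. -/
def ST_SV9 : Prop := ∀ (Q d K : ℕ) (M κ zb lam : ℤ) (P : (Fin 3 → ℕ) → ℤ[X])
  (E ρ : (Fin 3 → ℕ) → ℤ) (W : ℕ → ℕ → ℤ[X]) (A B tt : (Fin 3 → ℕ) × ℕ → ℤ) (C : ℤ),
  1000 ≤ Q → d ≤ 30 → 1 ≤ C →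
  (∀ q : ℕ, q.Prime → Q < q → ¬ (q : ℤ) ∣ M ∧ ¬ (q : ℤ) ∣ κ ∧ ¬ (q : ℤ) ∣ lam ∧
    ∀ i j, ¬ (q : ℤ) ∣ (W i j).coeff d) →
  (∀ a, (P a).natDegree = 5 ∧ (P a).leadingCoeff = lam) → (∀ i j, (W i j).natDegree ≤ d) →
  (∀ T, κ * tt T = E T.1 - (zb + M * (T.2 : ℤ)) ^ 2) →
  (∀ T (q k : ℕ), (q : ℤ) ^ k ∣ B T → (q : ℤ) ^ k ∣ (P T.1).eval (tt T)) →
  (∀ a (q : ℕ), q.Prime → Q < q → ∀ t : ℤ, (q : ℤ) ∣ κ * t - E a → (q : ℤ) ∣ (P a).eval t →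
    (q : ℤ) ∣ (W (a 1) (a 2)).eval (a 0 : ℤ)) →
  (∀ T (q : ℕ), q.Prime → Q < q → (q : ℤ) ∣ A T → (q : ℤ) ∣ B T → (q : ℤ) ∣ ρ T.1) →
  (∀ a, ρ a ≠ 0) → (∀ m : ℕ, 1 ≤ m → ∀ T ∈ Box m, |ρ T.1| ≤ C * (m : ℤ) ^ K) →
  ∃ m0 : ℕ, ∀ m : ℕ, m0 ≤ m →
    2 * ((Box m).filter (fun T => ∃ q : ℕ, q.Prime ∧ Q < q ∧ (q : ℤ) ^ 4 ∣ A T ∧
      (q : ℤ) ^ 6 ∣ B T)).card ≤ m ^ 6

open Classical in
/-- PR9 (from CURVE): collisions.  `T.1 ≠ T'.1`: less than 200 pairs `(t, t')` by CURVE, and each `t`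
has at most 2 values of `z`; `T.1 = T'.1`: for each `z` at most 5 values of `t'`, 10 of `z'`. -/
def ST_PR9 : Prop := ∀ (M κ zb : ℤ) (f g : (Fin 3 → ℕ) → ℚ[X]) (E : (Fin 3 → ℕ) → ℤ)
  (A B tt : (Fin 3 → ℕ) × ℕ → ℤ), M ≠ 0 →
  (∀ a, (f a).natDegree = 3) → (∀ a, (g a).natDegree = 5) →
  (∀ a a', (g a).leadingCoeff = (g a').leadingCoeff) →
  (∀ T, κ * tt T = E T.1 - (zb + M * (T.2 : ℤ)) ^ 2) →
  (∀ T T', A T = A T' → (f T.1).eval (tt T : ℚ) = (f T'.1).eval (tt T' : ℚ)) →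
  (∀ T T', B T = B T' → (g T.1).eval (tt T : ℚ) = (g T'.1).eval (tt T' : ℚ)) →
  (∀ T T', (f T'.1).comp (X + C ((tt T' - tt T : ℤ) : ℚ)) = f T.1 →
    (g T'.1).comp (X + C ((tt T' - tt T : ℤ) : ℚ)) = g T.1 → T.1 = T'.1) →
  ∀ m : ℕ, 1 ≤ m → ((Box m ×ˢ Box m).filter (fun p => A p.1 = A p.2 ∧
    B p.1 = B p.2)).card ≤ 1000 * m ^ 6

open Classical in
/-- FIN9 (compare `Helper17/R8/FIN.lean`): the good members (half of `Box m`) give at least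
`(m⁶ / 2)² / (K m⁶)` different pairs in `RS r C (m⁵)`; ST_GEN with `e = 6 / 5`. -/
def ST_FIN9 : Prop := ST_GEN → ∀ (r Q K : ℕ) (A B : (Fin 3 → ℕ) × ℕ → ℤ) (C : ℤ), 1 ≤ C →
  1 ≤ K →
  (∀ T, 4 * A T ^ 3 + 27 * B T ^ 2 ≠ 0 ∧
    (∀ q : ℕ, q.Prime → q ≤ Q → ¬ ((q : ℤ) ∣ A T ∧ (q : ℤ) ∣ B T)) ∧
    (r : Cardinal) ≤ Module.rank ℤ ((cur (A T) (B T)).toAffine).Point) →
  (∀ m : ℕ, 1 ≤ m → ∀ T ∈ Box m, |A T| ≤ C * (m : ℤ) ^ 20 ∧ |B T| ≤ C * (m : ℤ) ^ 30) →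
  (∃ m0 : ℕ, ∀ m : ℕ, m0 ≤ m →
    2 * ((Box m).filter (fun T => ∃ q : ℕ, q.Prime ∧ Q < q ∧ (q : ℤ) ^ 4 ∣ A T ∧
      (q : ℤ) ^ 6 ∣ B T)).card ≤ m ^ 6) →
  (∀ m : ℕ, 1 ≤ m → ((Box m ×ˢ Box m).filter (fun p => A p.1 = A p.2 ∧
    B p.1 = B p.2)).card ≤ K * m ^ 6) →
  ∃ c : ℝ, 0 < c ∧ ∃ H₀ : ℝ, ∀ H : ℝ, H₀ ≤ H → c * H ^ ((1 : ℝ) / 10) ≤ (NR r H : ℝ)

/-- RES1 (`exists_mul_add_mul_eq_C_resultant`; `Helper29/R8/PAIR.lean`: `eval_pI`, `eval_pJ`, `pI_eq`,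
`pJ_eq`). -/
def ST_RES1 : Prop := ∀ (e : ℕ → ℤ) (t n : ℤ), n ∣ fI e t → n ∣ fJ e t → n ∣ rho e

/-- RES2: crude bound (all entries of the Sylvester matrix are `≤ C' m³⁰`). -/
def ST_RES2 : Prop := ∀ C : ℤ, 1 ≤ C → ∃ C' : ℤ, 1 ≤ C' ∧ ∀ (m : ℕ) (e : ℕ → ℤ), 1 ≤ m →
  (∀ k, k ≤ 8 → |e k| ≤ C * (m : ℤ) ^ k) → |rho e| ≤ C' * (m : ℤ) ^ 240

/-- RES3 (`resultant_map_map`, `resultant_ne_zero` over `ZMod p`). -/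
def ST_RES3 : Prop := ∀ (p : ℕ) (e : ℕ → ℤ), p.Prime → ((48 * e 2 : ℤ) : ZMod p) ≠ 0 →
  ((1728 : ℤ) : ZMod p) ≠ 0 →
  IsCoprime (pI (fun k => (e k : ZMod p))) (pJ (fun k => (e k : ZMod p))) → rho e ≠ 0

/-- EKL: elementary symmetric functions of linear polynomials. -/
def ST_EKL : Prop := ∀ (s : Fin 8 → ℤ[X]) (l : Fin 8 → ℤ),
  (∀ i, (s i).natDegree ≤ 1 ∧ (s i).coeff 1 = l i) →
  ∀ k, (ek s k).natDegree ≤ k ∧ (ek s k).coeff k = ek l k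

/-- LEAD: `fJh` is homogeneous of weight 30 (`coeff_mul_of_natDegree_le`). -/
def ST_LEAD : Prop := ∀ (F : ℕ → ℤ[X]) (G : ℤ[X]) (v : ℕ → ℤ) (w κ : ℤ),
  (∀ k, k ≤ 8 → (F k).natDegree ≤ k ∧ (F k).coeff k = v k) → G.natDegree ≤ 6 →
  G.coeff 6 = w → (fJh F (C κ) G).natDegree ≤ 30 ∧ (fJh F (C κ) G).coeff 30 = fJh v κ w

/-- BD9 (compare `Helper84/R8/BND.lean`). -/
def ST_BD9 : Prop := ∀ C : ℤ, 1 ≤ C → ∃ C' : ℤ, 1 ≤ C' ∧ ∀ (m : ℕ) (s : Fin 8 → ℤ) (t : ℤ),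
  1 ≤ m → (∀ i, |s i| ≤ C * (m : ℤ)) → |t| ≤ C * (m : ℤ) ^ 6 →
  (∀ k, k ≤ 8 → |ek s k| ≤ C' * (m : ℤ) ^ k) ∧ |fI (ek s) t| ≤ C' * (m : ℤ) ^ 20 ∧
    |fJ (ek s) t| ≤ C' * (m : ℤ) ^ 30

/-- CUBP (from `Pool.Helper17.R8.ST_PT`, `chk_wF`): a second point `(X : Z : Y)` of the cubic and the
reference point `ξ = a²`, `y = yv e t a` (`a` a root) give a point of the Weierstrass curve with abscissa
`x / v²`. -/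
def ST_CUBP : Prop := ∀ (e : ℕ → ℤ) (t A B a X Z Y : ℤ), 48 * A = -(fI e t) →
  1728 * B = -(fJ e t) →
  a ^ 8 + e 2 * a ^ 6 - e 3 * a ^ 5 + e 4 * a ^ 4 - e 5 * a ^ 3 + e 6 * a ^ 2 - e 7 * a +
    e 8 = 0 →
  FF e t X Z Y = 0 → X * Z ≠ 0 → 6 * (a ^ 2 * (X * Z) - Y * Z) ≠ 0 →
  ∃ y : ℚ, y ^ 2 =
    (((3 * xX e t (a ^ 2) (yv e t a) (Y * Z) (X * Z) (wF e t X Z Y) : ℤ) : ℚ) /
      ((6 * (a ^ 2 * (X * Z) - Y * Z) : ℤ) : ℚ) ^ 2) ^ 3 +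
    (A : ℚ) * (((3 * xX e t (a ^ 2) (yv e t a) (Y * Z) (X * Z) (wF e t X Z Y) : ℤ) : ℚ) /
      ((6 * (a ^ 2 * (X * Z) - Y * Z) : ℤ) : ℚ) ^ 2) + (B : ℚ)

end Pool.Helper34.R9
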