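import Pool.Agent.Helper34.R9.SheetB
import Pool.Agent.Helper34.R7.REP
import Pool.Agent.Helper15.HallDiv

/-! # Row PR2B (MP_798d7d_nt, rank nine): pairs with almost the same `e 2` -/

set_option autoImplicit false

namespace Pool.Helper34.R9

open Pool.Helper17.R8 (ek ss ub)

namespace S34

theorem ek_two {R : Type} [CommRing R] (s : Fin 8 → R) :
    2 * ek s 2 = (∑ i, s i) ^ 2 - ∑ i, s i ^ 2 := by
  have h : ek s 2 = MvPolynomial.eval s (MvPolynomial.esymm (Fin 8) R 2) := by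
    unfold ek MvPolynomial.esymm
    rw [map_sum]
    refine Finset.sum_congr rfl fun T _ => ?_
    rw [map_prod]
    simp
  have h1 := MvPolynomial.mul_esymm_eq_sum (σ := Fin 8) (R := R) 2
  have h2 := congrArg (MvPolynomial.eval s) h1
  rw [h]
  have h3 : Finset.filter (fun a : ℕ × ℕ => a.1 < 2) (Finset.HasAntidiagonal.antidiagonal 2) =
      {(0, 2), (1, 1)} := by
    decide
  rw [h3] at h2
  simp only [MvPolynomial.psum, map_mul, map_sum, map_pow, map_neg, map_one, map_natCast] at h2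
  simp at h2
  rw [h2]
  ring

/-- `-12 e₂` as a sum of squares -/
theorem e2_form (u : Fin 6 → ℤ) :
    (3 * u 5 + (u 0 + u 1 + u 2 + u 3 + 1)) ^ 2 +
      3 * (2 * u 4 + u 5 + (u 0 + u 1 + u 2 + u 3 + 1)) ^ 2 =
    -12 * ek (ss u) 2 - 6 * (u 0 ^ 2 + u 1 ^ 2 + u 2 ^ 2 + u 3 ^ 2 + 1) -
      2 * (u 0 + u 1 + u 2 + u 3 + 1) ^ 2 := by
  have h := ek_two (ss u)
  rw [Fin.sum_univ_eight, Fin.sum_univ_eight] at h
  simp only [ss, Matrix.cons_val] at h
  have h2 : -12 * ek (ss u) 2 = -6 * (2 * ek (ss u) 2) := by ring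
  rw [h2]
  simp only [ss]
  rw [h]
  ring

theorem rep_count {α : Type} (d : ℕ) (hd : 1 ≤ d) (ε : ℝ) (hε : 0 < ε) (M : ℕ) :
    ∃ K : ℝ, 0 < K ∧ ∀ m : ℕ, 1 ≤ m → ∀ (T : Finset α) (φ : α → ℤ × ℤ) (n' : ℤ),
      (∀ x ∈ T, ∀ y ∈ T, φ x = φ y → x = y) →
      (∀ x ∈ T, (φ x).1 ^ 2 + d * (φ x).2 ^ 2 = n') → n' ≤ ((M * m ^ 2 : ℕ) : ℤ) →
      (T.card : ℝ) ≤ K * (m : ℝ) ^ ε := by
  classical
  obtain ⟨C', hC', hdiv⟩ := Pool.Agent.Helper15.Hall.card_divisors_le_uniform (ε / 4) (by positivity)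
  refine ⟨(8 * d + 1) ^ 2 * (C' ^ 2 * (M : ℝ) ^ (ε / 2)) + 1, by positivity,
    fun N hN T φ n' hinj hp hle => ?_⟩
  have hNr : (1 : ℝ) ≤ N := by exact_mod_cast hN
  have hNe : (1 : ℝ) ≤ (N : ℝ) ^ ε := Real.one_le_rpow hNr hε.le
  have hpos : (0 : ℝ) ≤ (8 * d + 1) ^ 2 * (C' ^ 2 * (M : ℝ) ^ (ε / 2)) := by positivity
  have hd0 : (0 : ℤ) < d := by exact_mod_cast hd
  have hcard : T.card = (T.image φ).card :=
    (Finset.card_image_of_injOn fun t ht t' ht' h => hinj t ht t' ht' h).symm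
  rcases lt_trichotomy n' 0 with h0 | h0 | h0
  · have hE : T = ∅ := by
      rw [Finset.eq_empty_iff_forall_notMem]
      intro t ht
      have h1 := hp t ht
      nlinarith [sq_nonneg (φ t).1, mul_nonneg hd0.le (sq_nonneg (φ t).2)]
    rw [hE, Finset.card_empty]
    push_cast
    positivity
  · have hle : T.card ≤ 1 := by
      rw [Finset.card_le_one]
      intro t ht t' ht'
      apply hinj t ht t' ht'
      have h1 := hp t ht
      have h2 := hp t' ht'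
      have h3 : ∀ a b : ℤ, a ^ 2 + d * b ^ 2 = 0 → a = 0 ∧ b = 0 := by
        intro a b hab
        have h4 : a ^ 2 = 0 := by nlinarith [sq_nonneg a, mul_nonneg hd0.le (sq_nonneg b)]
        have h5 : (d : ℤ) * b ^ 2 = 0 := by linarith
        refine ⟨by simpa using h4, ?_⟩
        rcases mul_eq_zero.1 h5 with h6 | h6
        · omega
        · simpa using h6
      obtain ⟨e1, e2⟩ := h3 _ _ (h1.trans h0)
      obtain ⟨e3, e4⟩ := h3 _ _ (h2.trans h0)
      exact Prod.ext (e1.trans e3.symm) (e2.trans e4.symm)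
    have hle' : (T.card : ℝ) ≤ 1 := by exact_mod_cast hle
    nlinarith
  · set n : ℕ := n'.toNat with hn
    have hnz : (n : ℤ) = n' := Int.toNat_of_nonneg h0.le
    have hn1 : 1 ≤ n := by omega
    have h1 := Pool.Helper34.R7.rep_all d n hd hn1 (T.image φ) (by
      intro q hq
      obtain ⟨t, ht, rfl⟩ := Finset.mem_image.1 hq
      rw [hp t ht, hnz])
    rw [← hcard] at h1
    have hnM : n ≤ M * N ^ 2 := by
      have h5 : ((n : ℕ) : ℤ) ≤ ((M * N ^ 2 : ℕ) : ℤ) := by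
        rw [hnz]
        exact hle
      exact_mod_cast h5
    have h6 := hdiv (M * N ^ 2) n (by omega) hnM
    have hτ : (0 : ℝ) ≤ (n.divisors.card : ℝ) := by positivity
    have h7 : ((n.divisors.card : ℝ)) ^ 2 ≤ C' ^ 2 * (M : ℝ) ^ (ε / 2) * (N : ℝ) ^ ε := by
      have h8 : (((M * N ^ 2 : ℕ) : ℝ) ^ (ε / 4)) ^ 2 = (M : ℝ) ^ (ε / 2) * (N : ℝ) ^ ε := by
        rw [← Real.rpow_natCast, ← Real.rpow_mul (by positivity)]
        push_cast
        rw [Real.mul_rpow (by positivity) (by positivity), ← Real.rpow_natCast (N : ℝ) 2,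
          ← Real.rpow_mul (by positivity)]
        have e1 : ε / 4 * 2 = ε / 2 := by ring
        have e2 : ((2 : ℕ) : ℝ) * (ε / 4 * 2) = ε := by
          push_cast
          ring
        rw [e2, e1]
      calc ((n.divisors.card : ℝ)) ^ 2 ≤ (C' * ((M * N ^ 2 : ℕ) : ℝ) ^ (ε / 4)) ^ 2 :=
            pow_le_pow_left₀ hτ h6 2
        _ = C' ^ 2 * (((M * N ^ 2 : ℕ) : ℝ) ^ (ε / 4)) ^ 2 := by ring
        _ = _ := by
          rw [h8]
          ring
    have h9 : (T.card : ℝ) ≤ (8 * d + 1) ^ 2 * ((n.divisors.card : ℝ)) ^ 2 := by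
      exact_mod_cast h1
    have h10 : ((8 * d + 1 : ℝ)) ^ 2 * ((n.divisors.card : ℝ)) ^ 2 ≤
        (8 * d + 1) ^ 2 * (C' ^ 2 * (M : ℝ) ^ (ε / 2) * (N : ℝ) ^ ε) :=
      mul_le_mul_of_nonneg_left h7 (by positivity)
    have hx : ((8 * d + 1 : ℝ)) ^ 2 * (C' ^ 2 * (M : ℝ) ^ (ε / 2) * (N : ℝ) ^ ε) =
        ((8 * d + 1) ^ 2 * (C' ^ 2 * (M : ℝ) ^ (ε / 2))) * (N : ℝ) ^ ε := by ring
    rw [hx] at h10
    have h11 := h9.trans h10
    nlinarith

theorem uB_bound : ∃ C0 : ℤ, 1 ≤ C0 ∧ ∀ m : ℕ, 1 ≤ m → ∀ a : Fin 6 → ℕ, (∀ i, a i < m) →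
    ∀ i, |uB a i| ≤ C0 * (m : ℤ) := by
  have hMB := MB_pos
  refine ⟨20 + 2 * MB, by omega, fun m hm a ha i => ?_⟩
  have h1 : |ub i| ≤ 20 := by
    fin_cases i <;> simp [ub]
  have h2 : (a i : ℤ) ≤ m := by exact_mod_cast (ha i).le
  have h3 : (a 0 : ℤ) ≤ m := by exact_mod_cast (ha 0).le
  have h4 : (0 : ℤ) ≤ a i := by positivity
  have h5 : (0 : ℤ) ≤ a 0 := by positivity
  have h6 : (1 : ℤ) ≤ m := by exact_mod_cast hm
  have h7 : 0 ≤ ((if i = 0 then 0 else (a i : ℤ)) + (a 0 : ℤ)) ∧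
      ((if i = 0 then 0 else (a i : ℤ)) + (a 0 : ℤ)) ≤ 2 * m := by
    split_ifs <;> constructor <;> omega
  unfold uB
  refine (abs_add_le _ _).trans ?_
  rw [abs_mul, abs_of_pos hMB, abs_of_nonneg h7.1]
  have h8 := mul_le_mul_of_nonneg_left h7.2 hMB.le
  nlinarith

end S34

open S34

open Classical in
theorem st_PR2B : ST_PR2B := by
  intro K ε hε
  obtain ⟨C0, hC0, hb⟩ := uB_bound
  set M : ℕ := (700 * C0 ^ 2).toNat with hM
  obtain ⟨K1, hK1, hrep⟩ := rep_count (α := (Fin 6 → ℕ) × (Fin 6 → ℕ)) 3 (by norm_num) ε hε M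
  set L : ℕ := (Finset.Icc (-K) K).card with hL
  refine ⟨K1 * L + 1, by positivity, fun m hm => ?_⟩
  set P6 := (Fintype.piFinset fun _ : Fin 6 => Finset.range m) with hP6
  set P4 := (Fintype.piFinset fun _ : Fin 4 => Finset.range m) with hP4
  set S := (P6 ×ˢ P6).filter (fun p => |ek (ss (uB p.1)) 2 - ek (ss (uB p.2)) 2| ≤ K) with hS
  set key : (Fin 6 → ℕ) × (Fin 6 → ℕ) → (Fin 6 → ℕ) × ((Fin 4 → ℕ) × ℤ) :=
    fun p => (p.2, (![p.1 0, p.1 1, p.1 2, p.1 3], ek (ss (uB p.1)) 2 - ek (ss (uB p.2)) 2)) with hkey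
  have hmem : ∀ p ∈ S, (∀ i, p.1 i < m) ∧ (∀ i, p.2 i < m) ∧
      |ek (ss (uB p.1)) 2 - ek (ss (uB p.2)) 2| ≤ K := by
    intro p hp
    rw [hS, Finset.mem_filter, Finset.mem_product] at hp
    refine ⟨fun i => ?_, fun i => ?_, hp.2⟩
    · exact Finset.mem_range.1 (Fintype.mem_piFinset.1 hp.1.1 i)
    · exact Finset.mem_range.1 (Fintype.mem_piFinset.1 hp.1.2 i)
  have hmaps : ∀ p ∈ S, key p ∈ P6 ×ˢ (P4 ×ˢ Finset.Icc (-K) K) := by
    intro p hp
    obtain ⟨h1, h2, h3⟩ := hmem p hp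
    rw [Finset.mem_product, Finset.mem_product]
    refine ⟨?_, ?_, ?_⟩
    · exact Fintype.mem_piFinset.2 fun i => Finset.mem_range.2 (h2 i)
    · refine Fintype.mem_piFinset.2 fun i => Finset.mem_range.2 ?_
      fin_cases i
      · exact h1 0
      · exact h1 1
      · exact h1 2
      · exact h1 3
    · rw [Finset.mem_Icc]
      exact abs_le.1 h3
  have hfib : ∀ k ∈ P6 ×ˢ (P4 ×ˢ Finset.Icc (-K) K),
      ((S.filter fun p => key p = k).card : ℝ) ≤ K1 * (m : ℝ) ^ ε := by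
    intro k _
    rcases (S.filter fun p => key p = k).eq_empty_or_nonempty with hE | ⟨p0, hp0⟩
    · rw [hE, Finset.card_empty]
      push_cast
      positivity
    set f : (Fin 6 → ℕ) × (Fin 6 → ℕ) → ℤ × ℤ := fun p =>
      (3 * uB p.1 5 + (uB p.1 0 + uB p.1 1 + uB p.1 2 + uB p.1 3 + 1),
        2 * uB p.1 4 + uB p.1 5 + (uB p.1 0 + uB p.1 1 + uB p.1 2 + uB p.1 3 + 1)) with hf
    have hsame : ∀ p ∈ S.filter (fun p => key p = k), p.2 = p0.2 ∧ p.1 0 = p0.1 0 ∧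
        p.1 1 = p0.1 1 ∧ p.1 2 = p0.1 2 ∧ p.1 3 = p0.1 3 ∧
        ek (ss (uB p.1)) 2 = ek (ss (uB p0.1)) 2 := by
      intro p hp
      have h1 := (Finset.mem_filter.1 hp).2
      have h2 := (Finset.mem_filter.1 hp0).2
      have h3 : key p = key p0 := h1.trans h2.symm
      simp only [hkey, Prod.mk.injEq] at h3
      obtain ⟨h4, h5, h6⟩ := h3
      rw [h4] at h6
      refine ⟨h4, ?_, ?_, ?_, ?_, by linarith⟩
      · exact congrFun h5 0
      · exact congrFun h5 1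
      · exact congrFun h5 2
      · exact congrFun h5 3
    have hu : ∀ p ∈ S.filter (fun p => key p = k), uB p.1 0 = uB p0.1 0 ∧ uB p.1 1 = uB p0.1 1 ∧
        uB p.1 2 = uB p0.1 2 ∧ uB p.1 3 = uB p0.1 3 := by
      intro p hp
      obtain ⟨-, e0, e1, e2, e3, -⟩ := hsame p hp
      unfold uB
      rw [e0, e1, e2, e3]
      exact ⟨rfl, rfl, rfl, rfl⟩
    refine hrep m hm _ f ((f p0).1 ^ 2 + ((3 : ℕ) : ℤ) * (f p0).2 ^ 2) ?_ ?_ ?_
    · intro p hp q hq h
      obtain ⟨a1, a2, a3, a4, a5, -⟩ := hsame p hp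
      obtain ⟨b1, b2, b3, b4, b5, -⟩ := hsame q hq
      obtain ⟨c0, c1, c2, c3⟩ := hu p hp
      obtain ⟨d0, d1, d2, d3⟩ := hu q hq
      simp only [hf, Prod.mk.injEq] at h
      obtain ⟨h1, h2⟩ := h
      rw [c0, c1, c2, c3, d0, d1, d2, d3] at h1 h2
      have h5 : uB p.1 5 = uB q.1 5 := by linarith
      have h4 : uB p.1 4 = uB q.1 4 := by linarith
      have hMB := MB_pos
      have g5 : p.1 5 = q.1 5 := by
        unfold uB at h5
        rw [a2, b2] at h5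
        simp only [Fin.reduceEq, if_false] at h5
        have := mul_left_cancel₀ hMB.ne' (add_left_cancel h5)
        omega
      have g4 : p.1 4 = q.1 4 := by
        unfold uB at h4
        rw [a2, b2] at h4
        simp only [Fin.reduceEq, if_false] at h4
        have := mul_left_cancel₀ hMB.ne' (add_left_cancel h4)
        omega
      refine Prod.ext ?_ (a1.trans b1.symm)
      funext i
      fin_cases i
      · exact a2.trans b2.symm
      · exact a3.trans b3.symm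
      · exact a4.trans b4.symm
      · exact a5.trans b5.symm
      · exact g4
      · exact g5
    · intro p hp
      obtain ⟨c0, c1, c2, c3⟩ := hu p hp
      obtain ⟨-, -, -, -, -, he⟩ := hsame p hp
      have h1 := e2_form (uB p.1)
      have h2 := e2_form (uB p0.1)
      simp only [hf]
      push_cast
      rw [h1, h2, c0, c1, c2, c3, he]
    · have hp0' := hmem p0 (Finset.mem_filter.1 hp0).1
      have hbd := hb m hm p0.1 hp0'.1
      have h6 : (1 : ℤ) ≤ m := by exact_mod_cast hm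
      simp only [hf]
      push_cast
      rw [hM, Int.toNat_of_nonneg (by positivity)]
      have g0 := abs_le.1 (hbd 0)
      have g1 := abs_le.1 (hbd 1)
      have g2 := abs_le.1 (hbd 2)
      have g3 := abs_le.1 (hbd 3)
      have g4 := abs_le.1 (hbd 4)
      have g5 := abs_le.1 (hbd 5)
      have hc1 : (1 : ℤ) ≤ C0 * m := by nlinarith
      have k1 : |3 * uB p0.1 5 + (uB p0.1 0 + uB p0.1 1 + uB p0.1 2 + uB p0.1 3 + 1)| ≤
          8 * (C0 * m) := by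
        rw [abs_le]
        constructor <;> linarith [g0.1, g0.2, g1.1, g1.2, g2.1, g2.2, g3.1, g3.2, g5.1, g5.2]
      have k2 : |2 * uB p0.1 4 + uB p0.1 5 +
          (uB p0.1 0 + uB p0.1 1 + uB p0.1 2 + uB p0.1 3 + 1)| ≤ 8 * (C0 * m) := by
        rw [abs_le]
        constructor <;> linarith [g0.1, g0.2, g1.1, g1.2, g2.1, g2.2, g3.1, g3.2, g4.1, g4.2,
          g5.1, g5.2]
      have k3 := sq_le_sq' (abs_le.1 k1).1 (abs_le.1 k1).2
      have k4 := sq_le_sq' (abs_le.1 k2).1 (abs_le.1 k2).2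
      have k5 : (8 * (C0 * (m : ℤ))) ^ 2 + 3 * (8 * (C0 * (m : ℤ))) ^ 2 ≤
          700 * C0 ^ 2 * (m : ℤ) ^ 2 := by
        have : (0 : ℤ) ≤ C0 ^ 2 * (m : ℤ) ^ 2 := by positivity
        nlinarith
      linarith
  have hcard : (S.card : ℝ) ≤ ((P6 ×ˢ (P4 ×ˢ Finset.Icc (-K) K)).card : ℝ) * (K1 * (m : ℝ) ^ ε) := by
    rw [Finset.card_eq_sum_card_fiberwise (f := key) (t := P6 ×ˢ (P4 ×ˢ Finset.Icc (-K) K))
      (fun p hp => hmaps p hp)]
    push_cast
    refine (Finset.sum_le_sum hfib).trans ?_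
    rw [Finset.sum_const, nsmul_eq_mul]
  have hkeys : ((P6 ×ˢ (P4 ×ˢ Finset.Icc (-K) K)).card : ℝ) = (m : ℝ) ^ 10 * L := by
    rw [Finset.card_product, Finset.card_product, ← hL, hP6, hP4, Fintype.card_piFinset,
      Fintype.card_piFinset]
    simp only [Finset.card_range, Finset.prod_const, Finset.card_univ, Fintype.card_fin]
    push_cast
    ring
  rw [hkeys] at hcard
  have hm0 : (0 : ℝ) < m := by exact_mod_cast hm
  have hpow : (m : ℝ) ^ (10 + ε) = (m : ℝ) ^ 10 * (m : ℝ) ^ ε := by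
    rw [Real.rpow_add hm0]
    norm_num
  rw [hpow]
  have hz : (0 : ℝ) ≤ (m : ℝ) ^ 10 * (m : ℝ) ^ ε := by positivity
  have hfin : (m : ℝ) ^ 10 * L * (K1 * (m : ℝ) ^ ε) = K1 * L * ((m : ℝ) ^ 10 * (m : ℝ) ^ ε) := by ring
  rw [hfin] at hcard
  have hlast : (K1 * L + 1) * ((m : ℝ) ^ 10 * (m : ℝ) ^ ε) =
      K1 * L * ((m : ℝ) ^ 10 * (m : ℝ) ^ ε) + (m : ℝ) ^ 10 * (m : ℝ) ^ ε := by ring
  rw [hlast]
  linarith

end Pool.Helper34.R9
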